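import Mathlib
import Pool.Agent.H313VA.Guess

/-!
# Ambiguity of intersections of boundedly ambiguous VASS languages

For all positive `k₁`, `k₂` there are a `k₁`-ambiguous VASS language `L₁` and a `k₂`-ambiguous
VASS language `L₂`, over one finite alphabet, such that no `n`-ambiguous VASS with
`n < k₁ k₂` recognises `L₁ ∩ L₂`.

The alphabet has letters `a_j, b_j` for `j < k₁ + k₂`.  `L₁` (`L₂`) is recognised by the
one-dimensional VASS that guesses an index `i` of the first group (of the second group) and checks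
that no prefix has more letters `b_i` than `a_i`.  On words `a_0^* b_0^* a_1^* b_1^* ...` this says
that the number of letters `b_i` is at most the number of letters `a_i`.  A VASS for the
intersection is shown to have, on one such word, an accepting run for each pair of indices, and a
pumping argument shows that these runs are pairwise distinct.

The definitions (`VASS`, `VASS.Run`, `VASS.lab`, `VASS.Acc`, `VASS.lang`, `VASS.Ambiguous`) are in
`Pool/Agent/H313VA/Basic.lean`.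
-/

set_option autoImplicit false

namespace Pool.Agent.Results.MP_bb7684_lc.IntersectionAmbiguity

open Pool.Agent.H313VA

/-- the `x`-th block letter -/
def letter (K : ℕ) [NeZero K] (x : ℕ) : Fin K × Bool := (Fin.ofNat K (x / 2), decide (x % 2 = 1))

/-- the counter that looks at the letters of index `g` -/
def cnt (K g : ℕ) (a : Fin K × Bool) : ℤ := if a.1.val = g then (if a.2 then -1 else 1) else 0

theorem ok_letter (K : ℕ) [NeZero K] (c : ℕ → ℕ) (g : ℕ) (hg : g < K) :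
    ok (cnt K g) 0 (W (letter K) c (2 * K)) ↔ c (2 * g + 1) ≤ c (2 * g) := by
  apply ok_pair (letter K) (cnt K g) c K g hg
  · have h1 : 2 * g / 2 = g := by omega
    simp [cnt, letter, h1, Nat.mod_eq_of_lt hg]
  · have h1 : (2 * g + 1) / 2 = g := by omega
    have h2 : (2 * g + 1) % 2 = 1 := by omega
    simp [cnt, letter, h1, h2, Nat.mod_eq_of_lt hg]
  · intro x hx h1 h2
    have h3 : x / 2 < K := by omega
    have h4 : x / 2 ≠ g := by omega
    simp [cnt, letter, Nat.mod_eq_of_lt h3, h4]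

theorem result : ∀ k₁ k₂ : ℕ, 0 < k₁ → 0 < k₂ →
    ∃ (A : Type) (_ : Finite A) (L₁ L₂ : Set (List A)),
      (∃ V : VASS A, V.Ambiguous k₁ ∧ V.lang = L₁) ∧
      (∃ V : VASS A, V.Ambiguous k₂ ∧ V.lang = L₂) ∧
      ∀ n < k₁ * k₂, ¬ ∃ V : VASS A, V.Ambiguous n ∧ V.lang = L₁ ∩ L₂ := by
  intro k₁ k₂ hk₁ hk₂
  haveI : NeZero (k₁ + k₂) := ⟨by omega⟩
  let e₁ : Fin k₁ → Fin (k₁ + k₂) × Bool → ℤ := fun i => cnt (k₁ + k₂) i
  let e₂ : Fin k₂ → Fin (k₁ + k₂) × Bool → ℤ := fun i => cnt (k₁ + k₂) (k₁ + i)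
  refine ⟨Fin (k₁ + k₂) × Bool, inferInstance, (guess _ k₁ e₁).lang, (guess _ k₂ e₂).lang,
    ⟨_, guess_ambiguous e₁ hk₁, rfl⟩, ⟨_, guess_ambiguous e₂ hk₂, rfl⟩, ?_⟩
  rintro n hn ⟨V, hV, hL⟩
  refine absurd (lower V (letter (k₁ + k₂)) k₁ k₂ n hV ?_) (not_le.2 hn)
  intro c
  rw [hL, Set.mem_inter_iff, guess_lang e₁ hk₁, guess_lang e₂ hk₂]
  constructor
  · rintro ⟨⟨i, hi⟩, ⟨i', hi'⟩⟩
    have h1 := i.2
    have h2 := i'.2
    exact ⟨⟨i, h1, (ok_letter (k₁ + k₂) c i (by omega)).1 hi⟩,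
      ⟨i', h2, (ok_letter (k₁ + k₂) c (k₁ + i') (by omega)).1 hi'⟩⟩
  · rintro ⟨⟨i, hi, h⟩, ⟨i', hi', h'⟩⟩
    exact ⟨⟨⟨i, hi⟩, (ok_letter (k₁ + k₂) c i (by omega)).2 h⟩,
      ⟨⟨i', hi'⟩, (ok_letter (k₁ + k₂) c (k₁ + i') (by omega)).2 h'⟩⟩

end Pool.Agent.Results.MP_bb7684_lc.IntersectionAmbiguity
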